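import Pool.Agent.K7.H42.TL.Stm

/-! Job COEFF of project TL: the Fourier coefficients of the p-th power of the distance to 0 -/

set_option autoImplicit false

namespace Pool.Agent.K7.H30.TLCOEFF

open Pool.Agent.K7.H42.TL MeasureTheory AddCircle

theorem shift_add (k : ℤ) (F : UnitAddCircle → ℂ) (s : UnitAddCircle)
    (hs : ∀ x : UnitAddCircle, (fourier (-k) (x + s) : ℂ) = -fourier (-k) x) :
    ∫ t : UnitAddCircle, (fourier (-k) t : ℂ) * F (t + s) ∂haarAddCircle =
      -∫ t : UnitAddCircle, (fourier (-k) t : ℂ) * F t ∂haarAddCircle := by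
  have h1 := integral_add_right_eq_self (μ := (haarAddCircle : Measure UnitAddCircle))
    (fun t : UnitAddCircle => (fourier (-k) (t - s) : ℂ) * F t) s
  have h2 : ∀ t : UnitAddCircle, (fourier (-k) (t - s) : ℂ) = -fourier (-k) t := by
    intro t
    have := hs (t - s)
    rw [sub_add_cancel] at this
    rw [this, neg_neg]
  rw [← integral_neg]
  simp only [add_sub_cancel_right] at h1
  rw [h1]
  refine integral_congr_ae (Filter.Eventually.of_forall fun t => ?_)
  simp only [h2 t, neg_mul]

theorem shift_sub (k : ℤ) (F : UnitAddCircle → ℂ) (s : UnitAddCircle)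
    (hs : ∀ x : UnitAddCircle, (fourier (-k) (x + s) : ℂ) = -fourier (-k) x) :
    ∫ t : UnitAddCircle, (fourier (-k) t : ℂ) * F (t - s) ∂haarAddCircle =
      -∫ t : UnitAddCircle, (fourier (-k) t : ℂ) * F t ∂haarAddCircle := by
  have hs' : ∀ x : UnitAddCircle, (fourier (-k) (x + -s) : ℂ) = -fourier (-k) x := by
    intro x
    have := hs (x + -s)
    rw [neg_add_cancel_right] at this
    rw [this, neg_neg]
  have := shift_add k F (-s) hs'
  simpa only [sub_eq_add_neg] using this

theorem t : StDiff → StCoeff := by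
  intro hD p hp k hk
  have hk' : (0 : ℝ) < |(k : ℝ)| := by positivity
  have hk1 : (1 : ℝ) ≤ |(k : ℝ)| := by
    have : (1 : ℤ) ≤ |k| := Int.one_le_abs hk
    exact_mod_cast this
  set F : UnitAddCircle → ℂ := fun t => ((‖t‖ ^ p : ℝ) : ℂ) with hF
  set h : ℝ := 1 / 2 / |(k : ℝ)| with hh
  have hpos : 0 < h := by positivity
  have hle : h ≤ 1 / 2 := by
    rw [hh]
    exact div_le_self (by norm_num) hk1
  -- half period shift
  have key : ∀ x : UnitAddCircle,
      (fourier (-k) (x + ((1 / 2 / ((-k : ℤ) : ℝ) : ℝ) : UnitAddCircle)) : ℂ) = -fourier (-k) x := by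
    intro x
    exact fourier_add_half_inv_index (T := (1 : ℝ)) (by simpa using hk) one_pos x
  have hs : ∀ x : UnitAddCircle, (fourier (-k) (x + (h : UnitAddCircle)) : ℂ) = -fourier (-k) x := by
    intro x
    rcases abs_cases (k : ℝ) with ⟨ha, _⟩ | ⟨ha, _⟩
    · have e : ((1 / 2 / ((-k : ℤ) : ℝ) : ℝ) : UnitAddCircle) = -((h : ℝ) : UnitAddCircle) := by
        rw [← AddCircle.coe_neg]
        congr 1
        rw [hh, ha]
        push_cast
        rw [div_neg]
      have := key (x + (h : UnitAddCircle))
      rw [e, add_neg_cancel_right] at this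
      rw [this, neg_neg]
    · have e : ((1 / 2 / ((-k : ℤ) : ℝ) : ℝ) : UnitAddCircle) = ((h : ℝ) : UnitAddCircle) := by
        congr 1
        rw [hh, ha]
        push_cast
        rfl
      rw [← e]
      exact key x
  have hcont : Continuous F := (fp p hp).continuous
  have hint : ∀ G : UnitAddCircle → ℂ, Continuous G →
      Integrable G (haarAddCircle : Measure UnitAddCircle) := fun G hG =>
    hG.integrable_of_hasCompactSupport (HasCompactSupport.of_compactSpace G)
  set c : ℂ := ∫ t : UnitAddCircle, (fourier (-k) t : ℂ) * F t ∂haarAddCircle with hc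
  have hcoef : fourierCoeff (fp p hp) k = c := by
    rw [hc, fourierCoeff]
    refine integral_congr_ae (Filter.Eventually.of_forall fun t => ?_)
    simp only [smul_eq_mul]
    rfl
  have hfc : Continuous fun t : UnitAddCircle => (fourier (-k) t : ℂ) := (fourier (-k)).continuous
  have hi1 : Integrable (fun t : UnitAddCircle => (fourier (-k) t : ℂ) * F (t + (h : UnitAddCircle)))
      haarAddCircle := hint _ (hfc.mul (hcont.comp (continuous_add_right _)))
  have hi2 : Integrable (fun t : UnitAddCircle => (fourier (-k) t : ℂ) * F (t - (h : UnitAddCircle)))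
      haarAddCircle := hint _ (hfc.mul (hcont.comp (continuous_sub_right _)))
  have hi3 : Integrable (fun t : UnitAddCircle => (fourier (-k) t : ℂ) * F t)
      haarAddCircle := hint _ (hfc.mul hcont)
  have e1 : ∫ t : UnitAddCircle, (fourier (-k) t : ℂ) *
      (F (t + (h : UnitAddCircle)) + F (t - (h : UnitAddCircle)) - 2 * F t) ∂haarAddCircle =
      -4 * c := by
    have : ∀ t : UnitAddCircle, (fourier (-k) t : ℂ) *
      (F (t + (h : UnitAddCircle)) + F (t - (h : UnitAddCircle)) - 2 * F t) =
      ((fourier (-k) t : ℂ) * F (t + (h : UnitAddCircle)) +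
        (fourier (-k) t : ℂ) * F (t - (h : UnitAddCircle))) - 2 * ((fourier (-k) t : ℂ) * F t) := by
      intro t; ring
    simp_rw [this]
    have i12 : Integrable (fun t : UnitAddCircle => (fourier (-k) t : ℂ) * F (t + (h : UnitAddCircle)) +
        (fourier (-k) t : ℂ) * F (t - (h : UnitAddCircle))) haarAddCircle := hi1.add hi2
    rw [integral_sub i12 (hi3.const_mul 2), integral_add hi1 hi2,
      integral_const_mul, shift_add k F _ hs, shift_sub k F _ hs]
    ring
  have e2 : ‖-4 * c‖ ≤ 8 * p * h ^ 2 := by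
    rw [← e1]
    refine (norm_integral_le_integral_norm _).trans ?_
    refine le_trans (le_of_eq ?_) (hD p hp h hpos hle)
    refine integral_congr_ae (Filter.Eventually.of_forall fun t => ?_)
    simp only [norm_mul, hF]
    have n1 : ‖(fourier (-k) t : ℂ)‖ = 1 := by
      rw [fourier_apply]
      exact Circle.norm_coe _
    rw [n1, one_mul, ← Real.norm_eq_abs, ← Complex.norm_real]
    congr 1
    push_cast
    ring
  rw [hcoef]
  rw [norm_mul] at e2
  have e3 : ‖(-4 : ℂ)‖ = 4 := by simp
  rw [e3] at e2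
  have e4 : h ^ 2 = 1 / 4 / (k : ℝ) ^ 2 := by
    rw [hh, div_pow, sq_abs]
    norm_num
  rw [e4] at e2
  have hk2 : (0 : ℝ) < (k : ℝ) ^ 2 := by positivity
  have e5 : 8 * p * (1 / 4 / (k : ℝ) ^ 2) = 4 * (p / (2 * (k : ℝ) ^ 2)) := by
    field_simp
    ring
  rw [e5] at e2
  linarith

end Pool.Agent.K7.H30.TLCOEFF
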