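import Mathlib

set_option autoImplicit false

namespace Pool.Agent.K7.H30.Vo

/-- A lattice with a positive definite symmetric bilinear form with finite balls, together with a
surjection onto `V` whose kernel is twice the lattice. -/
structure Lat (L V : Type) [AddCommGroup L] [AddCommGroup V] where
  b : L → L → ℝ
  add_left : ∀ x y z, b (x + y) z = b x z + b y z
  symm : ∀ x y, b x y = b y x
  pos : ∀ x, x ≠ 0 → 0 < b x x
  fin : ∀ C : ℝ, {x | b x x < C}.Finite
  pr : L →+ V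
  surj : Function.Surjective pr
  ker : ∀ x, pr x = 0 → ∃ y, x = y + y

namespace Lat

variable {L V : Type} [AddCommGroup L] [AddCommGroup V] (Λ : Lat L V)

/-- The norm. -/
def q (x : L) : ℝ := Λ.b x x

lemma add_right (x y z : L) : Λ.b x (y + z) = Λ.b x y + Λ.b x z := by
  rw [Λ.symm, Λ.add_left, Λ.symm y x, Λ.symm z x]

lemma zero_left (z : L) : Λ.b 0 z = 0 := by
  have h := Λ.add_left 0 0 z
  simp only [add_zero] at h
  linarith

lemma zero_right (z : L) : Λ.b z 0 = 0 := by rw [Λ.symm, Λ.zero_left]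

lemma neg_left (x z : L) : Λ.b (-x) z = - Λ.b x z := by
  have h := Λ.add_left (-x) x z
  rw [neg_add_cancel, Λ.zero_left] at h
  linarith

lemma neg_right (x z : L) : Λ.b x (-z) = - Λ.b x z := by
  rw [Λ.symm, Λ.neg_left, Λ.symm]

lemma sub_left (x y z : L) : Λ.b (x - y) z = Λ.b x z - Λ.b y z := by
  rw [sub_eq_add_neg, Λ.add_left, Λ.neg_left]; ring

lemma sub_right (x y z : L) : Λ.b x (y - z) = Λ.b x y - Λ.b x z := by
  rw [sub_eq_add_neg, Λ.add_right, Λ.neg_right]; ring

lemma q_zero : Λ.q 0 = 0 := Λ.zero_left 0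

lemma q_neg (x : L) : Λ.q (-x) = Λ.q x := by
  unfold q; rw [Λ.neg_left, Λ.neg_right]; ring

lemma q_nonneg (x : L) : 0 ≤ Λ.q x := by
  by_cases h : x = 0
  · rw [h, Λ.q_zero]
  · exact (Λ.pos x h).le

lemma q_pos {x : L} (h : x ≠ 0) : 0 < Λ.q x := Λ.pos x h

lemma eq_zero_of_q {x : L} (h : Λ.q x ≤ 0) : x = 0 := by
  by_contra hx
  exact absurd (Λ.q_pos hx) (not_lt.mpr h)

lemma q_add (x y : L) : Λ.q (x + y) = Λ.q x + Λ.q y + 2 * Λ.b x y := by
  unfold q; rw [Λ.add_left, Λ.add_right, Λ.add_right, Λ.symm y x]; ring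

lemma q_sub (x y : L) : Λ.q (x - y) = Λ.q x + Λ.q y - 2 * Λ.b x y := by
  unfold q; rw [Λ.sub_left, Λ.sub_right, Λ.sub_right, Λ.symm y x]; ring

include Λ in
lemma double_eq_zero {x : L} (h : x + x = 0) : x = 0 := by
  apply Λ.eq_zero_of_q
  have h1 : Λ.q (x + x) = 0 := by rw [h, Λ.q_zero]
  rw [Λ.q_add] at h1
  have : Λ.b x x = Λ.q x := rfl
  linarith

include Λ in
lemma double_inj {x y : L} (h : x + x = y + y) : x = y := by
  have : (x - y) + (x - y) = 0 := by
    have : (x - y) + (x - y) = (x + x) - (y + y) := by abel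
    rw [this, h, sub_self]
  exact sub_eq_zero.mp (Λ.double_eq_zero this)

/-- Half of a vector. -/
noncomputable def half (x : L) : L := by
  classical
  exact if h : ∃ y, x = y + y then h.choose else 0

lemma half_add {x : L} (h : Λ.pr x = 0) : Lat.half x + Lat.half x = x := by
  classical
  have h1 := Λ.ker x h
  unfold half
  rw [dif_pos h1]
  exact h1.choose_spec.symm

include Λ in
lemma half_eq {x h : L} (hx : h + h = x) : Lat.half x = h := by
  classical
  have h1 : ∃ y, x = y + y := ⟨h, hx.symm⟩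
  have h2 : Lat.half x = h1.choose := by unfold half; rw [dif_pos h1]
  rw [h2]
  apply Λ.double_inj
  rw [hx]; exact h1.choose_spec.symm

/-- rank function for well-founded induction -/
noncomputable def rk (x : L) : ℕ := (Λ.fin (Λ.q x)).toFinset.card

lemma rk_lt {x y : L} (h : Λ.q x < Λ.q y) : Λ.rk x < Λ.rk y := by
  unfold rk
  apply Finset.card_lt_card
  rw [Finset.ssubset_iff_of_subset]
  · refine ⟨x, ?_, ?_⟩
    · simp only [Set.Finite.mem_toFinset, Set.mem_ofPred_eq]; exact h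
    · simp only [Set.Finite.mem_toFinset, Set.mem_ofPred_eq]; exact lt_irrefl _
  · intro z hz
    simp only [Set.Finite.mem_toFinset, Set.mem_ofPred_eq] at hz ⊢
    exact lt_trans hz h

theorem induction_q {P : L → Prop} (h : ∀ x, (∀ y, Λ.q y < Λ.q x → P y) → P x) : ∀ x, P x := by
  have : ∀ n : ℕ, ∀ x, Λ.rk x = n → P x := by
    intro n
    induction n using Nat.strong_induction_on with
    | _ n ih =>
      intro x hx
      apply h
      intro y hy
      exact ih (Λ.rk y) (hx ▸ Λ.rk_lt hy) y rfl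
  intro x
  exact this _ x rfl

/-- A choice of minimal vectors in all classes. -/
structure MinSys where
  y : V → L
  pr_y : ∀ v, Λ.pr (y v) = v
  min : ∀ x, Λ.q (y (Λ.pr x)) ≤ Λ.q x

theorem exists_minSys : Nonempty Λ.MinSys := by
  have h : ∀ v : V, ∃ y : L, Λ.pr y = v ∧ ∀ x, Λ.pr x = v → Λ.q y ≤ Λ.q x := by
    intro v
    obtain ⟨x0, hx0⟩ := Λ.surj v
    have key : ∀ x : L, Λ.pr x = v → ∃ y : L, Λ.pr y = v ∧ ∀ z, Λ.pr z = v → Λ.q y ≤ Λ.q z := by
      apply Λ.induction_q (P := fun x => Λ.pr x = v → ∃ y : L, Λ.pr y = v ∧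
        ∀ z, Λ.pr z = v → Λ.q y ≤ Λ.q z)
      intro x ih hx
      by_cases hex : ∃ z, Λ.pr z = v ∧ Λ.q z < Λ.q x
      · obtain ⟨z, hz, hzx⟩ := hex
        exact ih z hzx hz
      · push Not at hex
        exact ⟨x, hx, fun z hz => hex z hz⟩
    exact key x0 hx0
  choose y hy1 hy2 using h
  exact ⟨⟨y, hy1, fun x => hy2 _ x rfl⟩⟩

end Lat

namespace Lat.MinSys

variable {L V : Type} [AddCommGroup L] [AddCommGroup V] {Λ : Lat L V} (M : Λ.MinSys)

/-- vonorm -/
noncomputable def f (v : V) : ℝ := Λ.q (M.y v)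

lemma f_le (x : L) : M.f (Λ.pr x) ≤ Λ.q x := M.min x

lemma f_le' {x : L} {v : V} (h : Λ.pr x = v) : M.f v ≤ Λ.q x := h ▸ M.min x

lemma y_zero : M.y 0 = 0 := by
  apply Λ.eq_zero_of_q
  have h := M.min 0
  rw [map_zero, Λ.q_zero] at h
  exact h

lemma f_zero : M.f 0 = 0 := by unfold f; rw [M.y_zero, Λ.q_zero]

lemma y_ne {v : V} (h : v ≠ 0) : M.y v ≠ 0 := by
  intro h1
  apply h
  rw [← M.pr_y v, h1, map_zero]

lemma f_pos {v : V} (h : v ≠ 0) : 0 < M.f v := Λ.q_pos (M.y_ne h)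

lemma f_nonneg (v : V) : 0 ≤ M.f v := Λ.q_nonneg _

/-- uniqueness of minimal vectors -/
def UM : Prop := ∀ x : L, Λ.q x ≤ M.f (Λ.pr x) → x = M.y (Λ.pr x) ∨ x = - M.y (Λ.pr x)

/-- strict subadditivity -/
def SS : Prop := ∀ a b : V, a ≠ 0 → b ≠ 0 → a ≠ b → M.f (a + b) < M.f a + M.f b

end Lat.MinSys

section two

variable {L V : Type} [AddCommGroup L] [AddCommGroup V] [Module (ZMod 2) V] {Λ : Lat L V}
  (M : Λ.MinSys)

lemma self_add (v : V) : v + v = 0 := ZModModule.add_self v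

lemma neg_eq (v : V) : -v = v := by
  rw [neg_eq_iff_add_eq_zero]; exact self_add v

lemma sub_eq_add' (v w : V) : v - w = v + w := by rw [sub_eq_add_neg, neg_eq]

lemma add_add_cancel' (a b : V) : a + (a + b) = b := by
  rw [← add_assoc, self_add, zero_add]

lemma add_eq_zero_iff' {a b : V} : a + b = 0 ↔ a = b := by
  rw [add_eq_zero_iff_eq_neg, neg_eq]

theorem ss_of_um (h : M.UM) : M.SS := by
  intro a b ha hb hab
  by_contra hlt
  push Not at hlt
  set x := M.y a + M.y b with hx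
  set z := M.y a - M.y b with hz
  have hq : Λ.q x + Λ.q z = 2 * M.f a + 2 * M.f b := by
    rw [hx, hz, Λ.q_add, Λ.q_sub]; unfold Lat.MinSys.f; ring
  have px : Λ.pr x = a + b := by rw [hx, map_add, M.pr_y, M.pr_y]
  have pz : Λ.pr z = a + b := by rw [hz, map_sub, M.pr_y, M.pr_y, sub_eq_add']
  have h1 := M.f_le' px
  have h2 := M.f_le' pz
  have ex : Λ.q x ≤ M.f (Λ.pr x) := by rw [px]; linarith
  have ez : Λ.q z ≤ M.f (Λ.pr z) := by rw [pz]; linarith
  have hyb : M.y b ≠ 0 := M.y_ne hb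
  have hya : M.y a ≠ 0 := M.y_ne ha
  have contra1 : x = z → False := by
    intro h
    apply hyb
    apply Λ.double_eq_zero
    have : M.y b + M.y b = x - z := by rw [hx, hz]; abel
    rw [this, h, sub_self]
  have contra2 : x = -z → False := by
    intro h
    apply hya
    apply Λ.double_eq_zero
    have : M.y a + M.y a = x + z := by rw [hx, hz]; abel
    rw [this, h, neg_add_cancel]
  rcases h x ex with h3 | h3 <;> rcases h z ez with h4 | h4 <;> rw [px] at h3 <;> rw [pz] at h4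
  · exact contra1 (h3.trans h4.symm)
  · exact contra2 (by rw [h3, h4, neg_neg])
  · exact contra2 (by rw [h3, h4])
  · exact contra1 (h3.trans h4.symm)

theorem um_of_ss (h : M.SS) : M.UM := by
  intro x hx
  set c := Λ.pr x with hc
  by_cases hc0 : c = 0
  · left
    rw [hc0, M.f_zero] at hx
    rw [hc0, M.y_zero]
    exact Λ.eq_zero_of_q hx
  by_contra hne
  push Not at hne
  obtain ⟨hne1, hne2⟩ := hne
  have p1 : Λ.pr (x + M.y c) = 0 := by rw [map_add, M.pr_y, ← hc, self_add]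
  set r := Lat.half (x + M.y c) with hr
  have hr2 : r + r = x + M.y c := Λ.half_add p1
  set s := r - M.y c with hs
  have hxrs : r + s = x := by
    rw [hs]
    have : r + (r - M.y c) = (r + r) - M.y c := by abel
    rw [this, hr2]; abel
  have hyrs : r - s = M.y c := by rw [hs]; abel
  have hr0 : r ≠ 0 := by
    intro h0
    apply hne2
    rw [h0, add_zero] at hr2
    exact eq_neg_of_add_eq_zero_left hr2.symm
  have hs0 : s ≠ 0 := by
    intro h0
    apply hne1
    rw [h0, add_zero] at hxrs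
    rw [h0, sub_zero] at hyrs
    rw [← hxrs, hyrs]
  have hq : Λ.q x + Λ.q (M.y c) = 2 * Λ.q r + 2 * Λ.q s := by
    have e1 : Λ.q x = Λ.q r + Λ.q s + 2 * Λ.b r s := by rw [← Λ.q_add, hxrs]
    have e2 : Λ.q (M.y c) = Λ.q r + Λ.q s - 2 * Λ.b r s := by rw [← Λ.q_sub, hyrs]
    rw [e1, e2]; ring
  have hfc : M.f c = Λ.q (M.y c) := rfl
  have hsum : Λ.q r + Λ.q s ≤ M.f c := by linarith
  have prs : Λ.pr r + Λ.pr s = c := by rw [← map_add, hxrs]
  have q1 := M.f_le r
  have q2 := M.f_le s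
  have qr := Λ.q_pos hr0
  have qs := Λ.q_pos hs0
  by_cases h1 : Λ.pr r = 0
  · rw [h1, zero_add] at prs
    rw [prs] at q2
    linarith
  by_cases h2 : Λ.pr s = 0
  · rw [h2, add_zero] at prs
    rw [prs] at q1
    linarith
  have h3 : Λ.pr r ≠ Λ.pr s := by
    intro h3
    apply hc0
    rw [← prs, h3, self_add]
  have := h _ _ h1 h2 h3
  rw [prs] at this
  linarith

end two

end Pool.Agent.K7.H30.Vo
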