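import Pool.Agent.K7.H30.VoB

set_option autoImplicit false

namespace Pool.Agent.K7.H30.Vo

section one

variable {L V : Type} [AddCommGroup L] [AddCommGroup V] [Module (ZMod 2) V] {Λ : Lat L V}
  (M : Λ.MinSys)

/-- half sum of the three minimal vectors on a line -/
noncomputable def Lat.MinSys.hh (c d : V) : L := Lat.half (M.y c + M.y d + M.y (c + d))

noncomputable def Lat.MinSys.T (c d : V) : V := Λ.pr (M.hh c d)

lemma hh_add (c d : V) : M.hh c d + M.hh c d = M.y c + M.y d + M.y (c + d) := by
  unfold Lat.MinSys.hh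
  apply Λ.half_add
  rw [map_add, map_add, M.pr_y, M.pr_y, M.pr_y, self_add]

lemma hh_eq {c d : V} {h : L} (hx : h + h = M.y c + M.y d + M.y (c + d)) : M.hh c d = h := by
  apply Λ.double_inj
  rw [hh_add, hx]

lemma hh_symm (c d : V) : M.hh c d = M.hh d c := by
  apply hh_eq
  rw [hh_add, add_comm d c]; abel

lemma hh_right (c d : V) : M.hh c (c + d) = M.hh c d := by
  apply hh_eq
  rw [hh_add, add_add_cancel']; abel

lemma T_symm (c d : V) : M.T c d = M.T d c := by
  unfold Lat.MinSys.T; rw [hh_symm]

lemma T_right (c d : V) : M.T c (c + d) = M.T c d := by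
  unfold Lat.MinSys.T; rw [hh_right]

lemma T_zero (d : V) : M.T 0 d = d := by
  unfold Lat.MinSys.T
  have : M.hh 0 d = M.y d := by
    apply hh_eq; rw [M.y_zero, zero_add, zero_add]
  rw [this, M.pr_y]

lemma T_coc (c d e : V) : M.T c d + M.T (c + d) e + M.T d e + M.T c (d + e) = c + e := by
  have key : M.hh c d + M.hh (c + d) e - M.hh d e - M.hh c (d + e) =
      M.y (c + d) - M.y (d + e) := by
    apply Λ.double_inj
    have h1 := hh_add M c d
    have h2 := hh_add M (c + d) e
    have h3 := hh_add M d e
    have h4 := hh_add M c (d + e)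
    have e0 : M.hh c d + M.hh (c + d) e - M.hh d e - M.hh c (d + e) +
        (M.hh c d + M.hh (c + d) e - M.hh d e - M.hh c (d + e)) =
        (M.hh c d + M.hh c d) + (M.hh (c + d) e + M.hh (c + d) e) - (M.hh d e + M.hh d e) -
        (M.hh c (d + e) + M.hh c (d + e)) := by abel
    rw [e0, h1, h2, h3, h4, add_assoc c d e]
    abel
  have := congrArg Λ.pr key
  simp only [map_add, map_sub, M.pr_y] at this
  rw [sub_eq_add', sub_eq_add', sub_eq_add'] at this
  unfold Lat.MinSys.T
  rw [this]
  have : c + d + (d + e) = c + e + (d + d) := by abel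
  rw [this, self_add, add_zero]

/-- The weight inequality (tropical theta relation). -/
lemma T_weight (c d : V) :
    M.f (M.T c d) + M.f (M.T c d + c) + M.f (M.T c d + d) + M.f (M.T c d + (c + d)) ≤
      M.f c + M.f d + M.f (c + d) := by
  set h := M.hh c d with hh
  have h2 : h + h = M.y c + M.y d + M.y (c + d) := hh_add M c d
  have hT : M.T c d = Λ.pr h := rfl
  have p1 : Λ.pr (h - M.y c) = M.T c d + c := by rw [map_sub, M.pr_y, sub_eq_add', hT]
  have p2 : Λ.pr (h - M.y d) = M.T c d + d := by rw [map_sub, M.pr_y, sub_eq_add', hT]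
  have p3 : Λ.pr (h - M.y (c + d)) = M.T c d + (c + d) := by
    rw [map_sub, M.pr_y, sub_eq_add', hT]
  have q0 := M.f_le' (show Λ.pr h = M.T c d from rfl)
  have q1 := M.f_le' p1
  have q2 := M.f_le' p2
  have q3 := M.f_le' p3
  have e : Λ.q h + Λ.q (h - M.y c) + Λ.q (h - M.y d) + Λ.q (h - M.y (c + d)) =
      M.f c + M.f d + M.f (c + d) := by
    rw [Λ.q_sub, Λ.q_sub, Λ.q_sub]
    have e1 : Λ.b h (h + h) = Λ.b h (M.y c) + Λ.b h (M.y d) + Λ.b h (M.y (c + d)) := by
      rw [h2, Λ.add_right, Λ.add_right]
    rw [Λ.add_right] at e1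
    have e2 : Λ.b h h = Λ.q h := rfl
    have e3 : Λ.q (M.y c) = M.f c := rfl
    have e4 : Λ.q (M.y d) = M.f d := rfl
    have e5 : Λ.q (M.y (c + d)) = M.f (c + d) := rfl
    rw [e3, e4, e5]
    linarith
  linarith

/-- if the class of the half sum lies on the line then the half sum is a minimal vector -/
lemma hh_of_T {c d : V} (w : V) (hw : w = 0 ∨ w = c ∨ w = d ∨ w = c + d) (h : M.T c d = w) :
    M.hh c d = M.y w := by
  have h2 := hh_add M c d
  have hT : Λ.pr (M.hh c d) = w := h
  set x := M.hh c d with hx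
  have e : Λ.q x + Λ.q (x - M.y c) + Λ.q (x - M.y d) + Λ.q (x - M.y (c + d)) =
      M.f c + M.f d + M.f (c + d) := by
    rw [Λ.q_sub, Λ.q_sub, Λ.q_sub]
    have e1 : Λ.b x (x + x) = Λ.b x (M.y c) + Λ.b x (M.y d) + Λ.b x (M.y (c + d)) := by
      rw [h2, Λ.add_right, Λ.add_right]
    rw [Λ.add_right] at e1
    have e2 : Λ.b x x = Λ.q x := rfl
    have e3 : Λ.q (M.y c) = M.f c := rfl
    have e4 : Λ.q (M.y d) = M.f d := rfl
    have e5 : Λ.q (M.y (c + d)) = M.f (c + d) := rfl
    rw [e3, e4, e5]
    linarith
  have p1 : Λ.pr (x - M.y c) = w + c := by rw [map_sub, M.pr_y, sub_eq_add', hT]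
  have p2 : Λ.pr (x - M.y d) = w + d := by rw [map_sub, M.pr_y, sub_eq_add', hT]
  have p3 : Λ.pr (x - M.y (c + d)) = w + (c + d) := by rw [map_sub, M.pr_y, sub_eq_add', hT]
  have q0 := M.f_le' hT
  have q1 := M.f_le' p1
  have q2 := M.f_le' p2
  have q3 := M.f_le' p3
  rcases hw with rfl | rfl | rfl | rfl
  · rw [zero_add] at q1 q2 q3
    rw [M.y_zero]
    apply Λ.eq_zero_of_q
    linarith
  · rw [add_add_cancel'] at q3
    have : x - M.y w = 0 := by
      apply Λ.eq_zero_of_q
      linarith
    exact sub_eq_zero.mp this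
  · have e6 : w + (c + w) = c := by rw [add_comm c w, add_add_cancel']
    rw [e6] at q3
    have e7 : w + c = c + w := add_comm _ _
    rw [e7] at q1
    have : x - M.y w = 0 := by
      apply Λ.eq_zero_of_q
      linarith
    exact sub_eq_zero.mp this
  · have e6 : c + d + c = d := by rw [add_comm, add_add_cancel']
    have e7 : c + d + d = c := by rw [add_assoc, self_add, add_zero]
    rw [e6] at q1
    rw [e7] at q2
    have : x - M.y (c + d) = 0 := by
      apply Λ.eq_zero_of_q
      linarith
    exact sub_eq_zero.mp this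

/-- flipping signs -/
noncomputable def Lat.MinSys.flip (s : V → ZMod 2) : Λ.MinSys where
  y := fun v => if s v = 0 then M.y v else - M.y v
  pr_y := by
    intro v
    by_cases h : s v = 0
    · simp only [h, if_true, M.pr_y]
    · simp only [h, if_false, map_neg, M.pr_y, neg_eq]
  min := by
    intro x
    by_cases h : s (Λ.pr x) = 0
    · simp only [h, if_true]; exact M.min x
    · simp only [h, if_false, Λ.q_neg]; exact M.min x

lemma flip_y (s : V → ZMod 2) (v : V) :
    (M.flip s).y v = if s v = 0 then M.y v else - M.y v := rfl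

lemma flip_f (s : V → ZMod 2) (v : V) : (M.flip s).f v = M.f v := by
  unfold Lat.MinSys.f
  rw [flip_y]
  by_cases h : s v = 0
  · rw [if_pos h]
  · rw [if_neg h, Λ.q_neg]

lemma flip_T (s : V → ZMod 2) (c d : V) :
    (M.flip s).T c d = M.T c d + s c • c + s d • d + s (c + d) • (c + d) := by
  unfold Lat.MinSys.T
  have key : ∀ v : V, ∃ z : L, (M.flip s).y v = M.y v - (z + z) ∧ Λ.pr z = s v • v := by
    intro v
    rw [flip_y]
    rcases zmod2_cases (s v) with h | h
    · exact ⟨0, by rw [if_pos h]; abel, by rw [h, map_zero, zero_smul]⟩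
    · refine ⟨M.y v, ?_, ?_⟩
      · rw [if_neg (by rw [h]; decide)]; abel
      · rw [h, one_smul, M.pr_y]
  obtain ⟨z1, h1, k1⟩ := key c
  obtain ⟨z2, h2, k2⟩ := key d
  obtain ⟨z3, h3, k3⟩ := key (c + d)
  have : (M.flip s).hh c d = M.hh c d - z1 - z2 - z3 := by
    apply hh_eq
    rw [h1, h2, h3]
    have := hh_add M c d
    have e : M.hh c d - z1 - z2 - z3 + (M.hh c d - z1 - z2 - z3) =
      (M.hh c d + M.hh c d) - (z1 + z1) - (z2 + z2) - (z3 + z3) := by abel
    rw [e, this]; abel
  rw [this, map_sub, map_sub, map_sub, k1, k2, k3, sub_eq_add', sub_eq_add', sub_eq_add']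

end one

section two

variable {L L' V : Type} [AddCommGroup L] [AddCommGroup L'] [AddCommGroup V] [Module (ZMod 2) V]
  {Λ : Lat L V} {Λ' : Lat L' V} (M : Λ.MinSys) (M' : Λ'.MinSys)

/-- the defect of two systems -/
noncomputable def DD (c d : V) : V := M.T c d + M'.T c d

lemma defect_DD : Defect (DD M M') where
  symm := by intro c d; unfold DD; rw [T_symm M, T_symm M']
  right := by intro c d; unfold DD; rw [T_right M, T_right M']
  zero := by intro d; unfold DD; rw [T_zero, T_zero, self_add]
  coc := by
    intro c d e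
    unfold DD
    have h1 := T_coc M c d e
    have h2 := T_coc M' c d e
    have : M.T c d + M'.T c d + (M.T (c + d) e + M'.T (c + d) e) + (M.T d e + M'.T d e) +
        (M.T c (d + e) + M'.T c (d + e)) =
        (M.T c d + M.T (c + d) e + M.T d e + M.T c (d + e)) +
        (M'.T c d + M'.T (c + d) e + M'.T d e + M'.T c (d + e)) := by abel
    rw [this, h1, h2, self_add]

/-- key step: if T is off the line then the six other lines of the plane are lighter -/
lemma key_step (hss : M.SS) (hf : ∀ v, M.f v = M'.f v) {c d : V} (hc : c ≠ 0) (hd : d ≠ 0)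
    (hcd : c ≠ d) (D : V → V → V) (hD : Defect D)
    (ih : ∀ a b : V, M.f a + M.f b + M.f (a + b) < M.f c + M.f d + M.f (c + d) → Good D a b)
    (v : V) (hv : M.f v + M.f (v + c) + M.f (v + d) + M.f (v + (c + d)) ≤
      M.f c + M.f d + M.f (c + d))
    (h0 : v ≠ 0) (h1 : v ≠ c) (h2 : v ≠ d) (h3 : v ≠ c + d) : Good D c d := by
  have hcd0 : c + d ≠ 0 := fun h => hcd (add_eq_zero_iff'.mp h)
  have n1 : v + c ≠ 0 := fun h => h1 (add_eq_zero_iff'.mp h)
  have n2 : v + d ≠ 0 := fun h => h2 (add_eq_zero_iff'.mp h)
  have n3 : v + (c + d) ≠ 0 := fun h => h3 (add_eq_zero_iff'.mp h)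
  have can : ∀ x y z : V, x + y = x + z → y = z := fun x y z h => add_left_cancel h
  -- sums
  have s1 : v + c + (v + d) = c + d := by
    have : v + c + (v + d) = c + d + (v + v) := by abel
    rw [this, self_add, add_zero]
  have s2 : v + c + (v + (c + d)) = d := by
    have : v + c + (v + (c + d)) = d + (v + v) + (c + c) := by abel
    rw [this, self_add, self_add, add_zero, add_zero]
  have s3 : v + d + (v + (c + d)) = c := by
    have : v + d + (v + (c + d)) = c + (v + v) + (d + d) := by abel
    rw [this, self_add, self_add, add_zero, add_zero]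
  have s4 : v + (v + c) = c := add_add_cancel' _ _
  have s5 : v + (v + d) = d := add_add_cancel' _ _
  have s6 : v + (v + (c + d)) = c + d := add_add_cancel' _ _
  -- strict inequalities
  have i1 : M.f (c + d) < M.f (v + c) + M.f (v + d) := by
    have := hss (v + c) (v + d) n1 n2 (fun h => hcd (can _ _ _ h))
    rwa [s1] at this
  have i2 : M.f d < M.f (v + c) + M.f (v + (c + d)) := by
    have := hss (v + c) (v + (c + d)) n1 n3 (fun h => by
      have := can _ _ _ h
      apply hd
      have h5 : c + 0 = c + d := by rw [add_zero]; exact this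
      exact (can _ _ _ h5).symm)
    rwa [s2] at this
  have i3 : M.f c < M.f (v + d) + M.f (v + (c + d)) := by
    have := hss (v + d) (v + (c + d)) n2 n3 (fun h => by
      have := can _ _ _ h
      apply hc
      have h5 : d + 0 = d + c := by rw [add_zero, add_comm d c]; exact this
      exact (can _ _ _ h5).symm)
    rwa [s3] at this
  have i4 : M.f c < M.f v + M.f (v + c) := by
    have := hss v (v + c) h0 n1 (fun h => by
      apply hc
      have h5 : v + 0 = v + c := by rw [add_zero]; exact h
      exact (can _ _ _ h5).symm)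
    rwa [s4] at this
  have i5 : M.f d < M.f v + M.f (v + d) := by
    have := hss v (v + d) h0 n2 (fun h => by
      apply hd
      have h5 : v + 0 = v + d := by rw [add_zero]; exact h
      exact (can _ _ _ h5).symm)
    rwa [s5] at this
  have i6 : M.f (c + d) < M.f v + M.f (v + (c + d)) := by
    have := hss v (v + (c + d)) h0 n3 (fun h => by
      apply hcd0
      have h5 : v + 0 = v + (c + d) := by rw [add_zero]; exact h
      exact (can _ _ _ h5).symm)
    rwa [s6] at this
  -- the six lines
  have g1 : Good D c v := by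
    apply ih
    rw [add_comm c v]
    linarith
  have g2 : Good D d v := by
    apply ih
    rw [add_comm d v]
    linarith
  have g3 : Good D (c + d) v := by
    apply ih
    rw [add_comm (c + d) v]
    linarith
  have g4 : Good D c (d + v) := by
    apply ih
    have : c + (d + v) = v + (c + d) := by abel
    rw [this, add_comm d v]
    linarith
  have g5 : Good D d (c + v) := by
    apply ih
    have : d + (c + v) = v + (c + d) := by abel
    rw [this, add_comm c v]
    linarith
  have g6 : Good D (c + d) (c + v) := by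
    apply ih
    have : c + d + (c + v) = v + d := by
      have : c + d + (c + v) = v + d + (c + c) := by abel
      rw [this, self_add, add_zero]
    rw [this, add_comm c v]
    linarith
  exact fano hD hc hd hcd h0 h1 h2 h3 g1 g2 g3 g4 g5 g6

theorem all_good [Finite V] (hss : M.SS) (hf : ∀ v, M.f v = M'.f v) :
    ∀ c d : V, Good (DD M M') c d := by
  have hD := defect_DD M M'
  set w : V × V → ℝ := fun p => M.f p.1 + M.f p.2 + M.f (p.1 + p.2) with hw
  have wf : WellFounded (fun p p' : V × V => w p < w p') := by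
    haveI : IsTrans (V × V) (fun p p' : V × V => w p < w p') := ⟨fun _ _ _ h1 h2 => lt_trans h1 h2⟩
    haveI : Std.Irrefl (fun p p' : V × V => w p < w p') := ⟨fun _ h => lt_irrefl _ h⟩
    exact Finite.wellFounded_of_trans_of_irrefl _
  have main : ∀ p : V × V, Good (DD M M') p.1 p.2 := by
    intro p
    induction p using wf.induction with
    | _ p ih =>
      obtain ⟨c, d⟩ := p
      simp only
      by_cases hc : c = 0
      · exact ⟨0, 0, by rw [hc, hD.zero]; simp⟩
      by_cases hd : d = 0
      · exact ⟨0, 0, by rw [hd, hD.symm, hD.zero]; simp⟩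
      by_cases hcd : c = d
      · exact ⟨0, 0, by rw [hcd, hD.self]; simp⟩
      have ih' : ∀ a b : V, M.f a + M.f b + M.f (a + b) < M.f c + M.f d + M.f (c + d) →
          Good (DD M M') a b := fun a b h => ih (a, b) h
      by_cases h1 : M.T c d = 0 ∨ M.T c d = c ∨ M.T c d = d ∨ M.T c d = c + d
      · by_cases h2 : M'.T c d = 0 ∨ M'.T c d = c ∨ M'.T c d = d ∨ M'.T c d = c + d
        · have g1 : ∃ α β : ZMod 2, M.T c d = α • c + β • d := by
            rcases h1 with h | h | h | h
            · exact ⟨0, 0, by rw [h]; simp⟩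
            · exact ⟨1, 0, by rw [h]; simp⟩
            · exact ⟨0, 1, by rw [h]; simp⟩
            · exact ⟨1, 1, by rw [h]; simp⟩
          have g2 : ∃ α β : ZMod 2, M'.T c d = α • c + β • d := by
            rcases h2 with h | h | h | h
            · exact ⟨0, 0, by rw [h]; simp⟩
            · exact ⟨1, 0, by rw [h]; simp⟩
            · exact ⟨0, 1, by rw [h]; simp⟩
            · exact ⟨1, 1, by rw [h]; simp⟩
          obtain ⟨α, β, g1⟩ := g1
          obtain ⟨α', β', g2⟩ := g2
          exact ⟨α + α', β + β', by unfold DD; rw [g1, g2]; module⟩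
        · push Not at h2
          obtain ⟨k0, k1, k2, k3⟩ := h2
          have hwt := T_weight M' c d
          simp only [← hf] at hwt
          exact key_step M M' hss hf hc hd hcd _ hD ih' _ hwt k0 k1 k2 k3
      · push Not at h1
        obtain ⟨k0, k1, k2, k3⟩ := h1
        exact key_step M M' hss hf hc hd hcd _ hD ih' _ (T_weight M c d) k0 k1 k2 k3
  intro c d
  exact main (c, d)

end two

end Pool.Agent.K7.H30.Vo
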