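import Pool.Agent.K7.H30.VoC

set_option autoImplicit false

namespace Pool.Agent.K7.H30.Vo

section alg

variable {V : Type} [AddCommGroup V] [Module (ZMod 2) V]

/-- sign comparison of two points on a line -/
noncomputable def rho (D : V → V → V) (c d : V) : ZMod 2 := by
  classical
  exact if D c d = c ∨ D c d = d then 1 else 0

lemma rho_symm {D : V → V → V} (hD : Defect D) (c d : V) : rho D c d = rho D d c := by
  classical
  unfold rho
  rw [hD.symm c d]
  congr 1
  exact propext or_comm

/-- rho from coefficients -/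
lemma rho_coef {D : V → V → V} {c d : V} (hc : c ≠ 0) (hd : d ≠ 0) (hcd : c ≠ d)
    {α β : ZMod 2} (h : D c d = α • c + β • d) : rho D c d = α + β := by
  classical
  unfold rho
  rw [h]
  rcases zmod2_cases α with rfl | rfl <;> rcases zmod2_cases β with rfl | rfl
  · simp only [zero_smul, add_zero]
    rw [if_neg]
    rintro (h1 | h1)
    · exact hc h1.symm
    · exact hd h1.symm
  · simp only [zero_smul, one_smul, zero_add]
    rw [if_pos (Or.inr trivial)]
  · simp only [zero_smul, one_smul, add_zero]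
    rw [if_pos (Or.inl trivial)]
  · simp only [one_smul]
    rw [if_neg]
    · decide
    rintro (h1 | h1)
    · apply hd
      have : c + d = c + 0 := by rw [add_zero]; exact h1
      exact add_left_cancel this
    · apply hc
      have : d + c = d + 0 := by rw [add_zero, add_comm]; exact h1
      exact add_left_cancel this

lemma line_coef {D : V → V → V} (hD : Defect D) (hg : ∀ c d, Good D c d) {c d : V} (hc : c ≠ 0)
    (hd : d ≠ 0) (hcd : c ≠ d) :
    D c d = rho D c (c + d) • c + rho D d (c + d) • d ∧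
      rho D c d = rho D c (c + d) + rho D d (c + d) := by
  have hcd0 : c + d ≠ 0 := fun h => hcd (add_eq_zero_iff'.mp h)
  obtain ⟨α, β, h⟩ := hg c d
  have e1 : D c (c + d) = (α + β) • c + β • (c + d) := by
    rw [hD.right, h]
    have : (α + β) • c + β • (c + d) = α • c + β • d + (β • c + β • c) := by module
    rw [this, self_add, add_zero]
  have e2 : D d (c + d) = (α + β) • d + α • (c + d) := by
    rw [add_comm c d, hD.right, hD.symm, h]
    have : (α + β) • d + α • (d + c) = α • c + β • d + (α • d + α • d) := by module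
    rw [this, self_add, add_zero]
  have n1 : c ≠ c + d := fun h1 => hd (by
    have : c + 0 = c + d := by rw [add_zero]; exact h1
    exact (add_left_cancel this).symm)
  have n2 : d ≠ c + d := fun h1 => hc (by
    have : d + 0 = d + c := by rw [add_zero, add_comm d c]; exact h1
    exact (add_left_cancel this).symm)
  have r1 := rho_coef hc hcd0 n1 e1
  have r2 := rho_coef hd hcd0 n2 e2
  have r0 := rho_coef hc hd hcd h
  have x1 : α + β + β = α := by rw [add_assoc, self_add β, add_zero]
  have x2 : α + β + α = β := by rw [add_comm, ← add_assoc, self_add α, zero_add]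
  rw [x1] at r1
  rw [x2] at r2
  rw [r1, r2, r0]
  exact ⟨h, rfl⟩

lemma rho_plane {D : V → V → V} (hD : Defect D) (hg : ∀ c d, Good D c d) {c d e : V} (hc : c ≠ 0)
    (hd : d ≠ 0) (hcd : c ≠ d) (h0 : e ≠ 0) (h1 : e ≠ c) (h2 : e ≠ d) (h3 : e ≠ c + d) :
    rho D c d + rho D d e + rho D c e = 0 := by
  obtain ⟨α, β, g1⟩ := hg c d
  obtain ⟨γ, δ, g2⟩ := hg d e
  obtain ⟨κ, lam, g3⟩ := hg c e
  obtain ⟨ε, ζ, g4⟩ := hg (c + d) e
  obtain ⟨η, θ, g5⟩ := hg c (d + e)
  obtain ⟨ε', ζ', g6⟩ := hg (c + e) d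
  rw [rho_coef hc hd hcd g1, rho_coef hd h0 (Ne.symm h2) g2, rho_coef hc h0 (Ne.symm h1) g3]
  have R1 := hD.coc c d e
  have R2 := hD.coc c e d
  rw [add_comm e d, hD.symm e d] at R2
  rw [g1, g4, g2, g5] at R1
  rw [g3, g6, g2, g5] at R2
  have R1' : (α + ε + η) • c + (β + ε + γ + θ) • d + (ζ + δ + θ) • e = 0 := by
    rw [← R1]; module
  have R2' : (κ + ε' + η) • c + (ζ' + γ + θ) • d + (lam + ε' + δ + θ) • e = 0 := by
    rw [← R2]; module
  obtain ⟨x1, x2, x3⟩ := indep3 hc hd hcd h0 h1 h2 h3 _ _ _ R1'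
  obtain ⟨y1, y2, y3⟩ := indep3 hc hd hcd h0 h1 h2 h3 _ _ _ R2'
  have t1 : (α + ε + η) + (κ + ε' + η) + (β + ε + γ + θ) + (lam + ε' + δ + θ) = 0 := by
    rw [x1, y1, x2, y3]; decide
  have t2 : α + β + (γ + δ) + (κ + lam) =
      (α + ε + η) + (κ + ε' + η) + (β + ε + γ + θ) + (lam + ε' + δ + θ) := by
    have c1 : ε + ε = 0 := self_add ε
    have c2 : ε' + ε' = 0 := self_add ε'
    have c3 : η + η = 0 := self_add η
    have c4 : θ + θ = 0 := self_add θ
    have : (α + ε + η) + (κ + ε' + η) + (β + ε + γ + θ) + (lam + ε' + δ + θ) =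
      α + β + (γ + δ) + (κ + lam) + (ε + ε) + (ε' + ε') + (η + η) + (θ + θ) := by ring
    rw [this, c1, c2, c3, c4]; ring
  rw [t2, t1]

/-- the sign function -/
theorem exists_sign {D : V → V → V} (hD : Defect D) (hg : ∀ c d, Good D c d) :
    ∃ s : V → ZMod 2, ∀ c d, D c d = s c • c + s d • d + s (c + d) • (c + d) := by
  by_cases htriv : ∃ c0 : V, c0 ≠ 0
  swap
  · push Not at htriv
    refine ⟨fun _ => 0, fun c d => ?_⟩
    rw [htriv c, hD.zero]; simp
  obtain ⟨c0, hc0⟩ := htriv
  -- cocycle property for distinct nonzero triples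
  have coc : ∀ a b c : V, a ≠ 0 → b ≠ 0 → c ≠ 0 → a ≠ b → b ≠ c → a ≠ c →
      rho D a b + rho D b c = rho D a c := by
    intro a b c ha hb hc hab hbc hac
    by_cases h : c = a + b
    · subst h
      have h1 := (line_coef hD hg ha hb hab).2
      rw [h1, add_assoc, self_add, add_zero]
    · have h1 := rho_plane hD hg ha hb hab hc (Ne.symm hac) (Ne.symm hbc) h
      exact add_eq_zero_iff'.mp h1
  have self : ∀ a : V, a ≠ 0 → rho D a a = 0 := by
    intro a ha
    classical
    unfold rho
    rw [hD.self, if_neg]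
    rintro (h | h) <;> exact ha h.symm
  have two : ∀ a b : V, a ≠ 0 → b ≠ 0 → a ≠ b → rho D c0 a + rho D c0 b = rho D a b := by
    intro a b ha hb hab
    by_cases h1 : a = c0
    · rw [h1, self c0 hc0, zero_add]
    by_cases h2 : b = c0
    · rw [h2, self c0 hc0, add_zero, rho_symm hD]
    rw [rho_symm hD c0 a]
    exact coc a c0 b ha hc0 hb h1 (Ne.symm h2) hab
  refine ⟨fun v => rho D c0 v, fun c d => ?_⟩
  by_cases hc : c = 0
  · rw [hc, hD.zero]; simp only [smul_zero, zero_add]; rw [self_add]
  by_cases hd : d = 0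
  · rw [hd, hD.symm, hD.zero]; simp only [smul_zero, add_zero]; rw [self_add]
  by_cases hcd : c = d
  · simp only [hcd, hD.self, self_add, smul_zero, add_zero]
  have hcd0 : c + d ≠ 0 := fun h => hcd (add_eq_zero_iff'.mp h)
  have n1 : c ≠ c + d := fun h1 => hd (by
    have : c + 0 = c + d := by rw [add_zero]; exact h1
    exact (add_left_cancel this).symm)
  have n2 : d ≠ c + d := fun h1 => hc (by
    have : d + 0 = d + c := by rw [add_zero, add_comm d c]; exact h1
    exact (add_left_cancel this).symm)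
  have h := (line_coef hD hg hc hd hcd).1
  rw [h, ← two c (c + d) hc hcd0 n1, ← two d (c + d) hd hcd0 n2]
  module

end alg

section two

variable {L L' V : Type} [AddCommGroup L] [AddCommGroup L'] [AddCommGroup V] [Module (ZMod 2) V]
  {Λ : Lat L V} {Λ' : Lat L' V} (M : Λ.MinSys) (M' : Λ'.MinSys)

/-- after changing signs the half sums of the two systems have the same classes -/
theorem exists_matched [Finite V] (hss : M.SS) (hf : ∀ v, M.f v = M'.f v) :
    ∃ N : Λ'.MinSys, (∀ v, N.f v = M'.f v) ∧ ∀ c d, N.T c d = M.T c d := by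
  obtain ⟨s, hs⟩ := exists_sign (defect_DD M M') (all_good M M' hss hf)
  refine ⟨M'.flip s, fun v => flip_f M' s v, fun c d => ?_⟩
  rw [flip_T]
  have h := hs c d
  unfold DD at h
  have h2 : M'.T c d + s c • c + s d • d + s (c + d) • (c + d) =
      M'.T c d + (s c • c + s d • d + s (c + d) • (c + d)) := by abel
  rw [h2, ← h]
  have : M'.T c d + (M.T c d + M'.T c d) = M.T c d + (M'.T c d + M'.T c d) := by abel
  rw [this, self_add, add_zero]

end two

end Pool.Agent.K7.H30.Vo
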