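import Pool.Agent.K7.H30.VoE

set_option autoImplicit false
open Matrix

namespace Pool.Agent.K7.H30.Vo

section real

variable {n : ℕ}

/-- real bilinear form -/
noncomputable def rb (A : Matrix (Fin n) (Fin n) ℝ) (x y : Fin n → ℝ) : ℝ :=
  dotProduct x (A.mulVec y)

lemma rb_add_left (A : Matrix (Fin n) (Fin n) ℝ) (x y z : Fin n → ℝ) :
    rb A (x + y) z = rb A x z + rb A y z := by
  unfold rb; rw [add_dotProduct]

lemma rb_symm {A : Matrix (Fin n) (Fin n) ℝ} (hA : A.PosDef) (x y : Fin n → ℝ) :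
    rb A x y = rb A y x := by
  unfold rb
  have h : Aᵀ = A := by
    have := hA.1
    rw [IsHermitian, conjTranspose_eq_transpose_of_trivial] at this
    exact this
  rw [dotProduct_comm, ← vecMul_transpose, h, ← dotProduct_mulVec]

lemma rb_pos {A : Matrix (Fin n) (Fin n) ℝ} (hA : A.PosDef) {x : Fin n → ℝ} (hx : x ≠ 0) :
    0 < rb A x x := by
  have := hA.dotProduct_mulVec_pos hx
  simpa [rb, star_trivial] using this

lemma rb_smul (A : Matrix (Fin n) (Fin n) ℝ) (t : ℝ) (x y : Fin n → ℝ) :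
    rb A (t • x) (t • y) = t * t * rb A x y := by
  unfold rb
  rw [mulVec_smul, dotProduct_smul, smul_dotProduct, smul_eq_mul, smul_eq_mul]
  ring

/-- coercivity -/
lemma rb_coercive {A : Matrix (Fin n) (Fin n) ℝ} (hA : A.PosDef) :
    ∃ c : ℝ, 0 < c ∧ ∀ x : Fin n → ℝ, c * ‖x‖ ^ 2 ≤ rb A x x := by
  by_cases hne : (Metric.sphere (0 : Fin n → ℝ) 1).Nonempty
  · have hc : IsCompact (Metric.sphere (0 : Fin n → ℝ) 1) := isCompact_sphere _ _
    have hcont : Continuous (fun x : Fin n → ℝ => rb A x x) := by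
      unfold rb
      simp only [dotProduct, mulVec]
      fun_prop
    obtain ⟨x0, hx0, hmin⟩ := hc.exists_isMinOn hne hcont.continuousOn
    have hx0' : x0 ≠ 0 := by
      rintro rfl
      simp at hx0
    refine ⟨rb A x0 x0, rb_pos hA hx0', ?_⟩
    intro x
    by_cases hx : x = 0
    · subst hx
      simp [rb]
    · have hn : 0 < ‖x‖ := norm_pos_iff.mpr hx
      have h1 : (‖x‖⁻¹ • x) ∈ Metric.sphere (0 : Fin n → ℝ) 1 := by
        rw [mem_sphere_zero_iff_norm, norm_smul, norm_inv, norm_norm]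
        field_simp
      have h2 := hmin h1
      simp only [Set.mem_ofPred_eq] at h2
      rw [rb_smul] at h2
      have h3 : ‖x‖ ^ 2 * (‖x‖⁻¹ * ‖x‖⁻¹ * rb A x x) = rb A x x := by
        field_simp
      rw [← h3, mul_comm (rb A x0 x0)]
      exact mul_le_mul_of_nonneg_left h2 (by positivity)
  · refine ⟨1, one_pos, ?_⟩
    intro x
    have hx : x = 0 := by
      by_contra hx
      apply hne
      refine ⟨‖x‖⁻¹ • x, ?_⟩
      have hn : 0 < ‖x‖ := norm_pos_iff.mpr hx
      rw [mem_sphere_zero_iff_norm, norm_smul, norm_inv, norm_norm]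
      field_simp
    subst hx
    simp [rb]

/-- cast of an integral vector -/
def cv (x : Fin n → ℤ) : Fin n → ℝ := fun i => (x i : ℝ)

lemma cv_add (x y : Fin n → ℤ) : cv (x + y) = cv x + cv y := by
  funext i; simp [cv]

lemma cv_ne {x : Fin n → ℤ} (hx : x ≠ 0) : cv x ≠ 0 := by
  intro h
  apply hx
  funext i
  have := congrFun h i
  simpa [cv] using this

lemma fin_ball {A : Matrix (Fin n) (Fin n) ℝ} (hA : A.PosDef) (C : ℝ) :
    {x : Fin n → ℤ | rb A (cv x) (cv x) < C}.Finite := by
  obtain ⟨c, hc, hle⟩ := rb_coercive hA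
  obtain ⟨K, hK⟩ := exists_nat_gt (C / c)
  apply Set.Finite.subset (Set.finite_Icc (fun _ : Fin n => -(K : ℤ)) (fun _ => (K : ℤ)))
  intro x hx
  simp only [Set.mem_ofPred_eq] at hx
  have h1 : c * ‖cv x‖ ^ 2 < C := lt_of_le_of_lt (hle _) hx
  have h2 : ‖cv x‖ ^ 2 < K := by
    have : ‖cv x‖ ^ 2 < C / c := by
      rw [lt_div_iff₀ hc]; linarith
    linarith
  have h3 : ∀ i, |x i| ≤ (K : ℤ) := by
    intro i
    have h4 : |(x i : ℝ)| ≤ ‖cv x‖ := by
      have := norm_le_pi_norm (cv x) i
      simpa [cv, Real.norm_eq_abs] using this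
    have h5 : |(x i : ℝ)| ^ 2 < K := lt_of_le_of_lt (by gcongr) h2
    have h6 : (|x i|) ^ 2 < (K : ℤ) := by exact_mod_cast h5
    nlinarith [abs_nonneg (x i), Int.natCast_nonneg K]
  rw [Set.mem_Icc]
  constructor
  · intro i; exact (abs_le.mp (h3 i)).1
  · intro i; exact (abs_le.mp (h3 i)).2

/-- the lattice attached to a positive definite matrix -/
noncomputable def latOf {A : Matrix (Fin n) (Fin n) ℝ} (hA : A.PosDef) :
    Lat (Fin n → ℤ) (Fin n → ZMod 2) where
  b := fun x y => rb A (cv x) (cv y)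
  add_left := by intro x y z; rw [cv_add, rb_add_left]
  symm := by intro x y; exact rb_symm hA _ _
  pos := by intro x hx; exact rb_pos hA (cv_ne hx)
  fin := fin_ball hA
  pr := (Int.castAddHom (ZMod 2)).compLeft (Fin n)
  surj := by
    intro v
    have h : ∀ i, ∃ a : ℤ, (a : ZMod 2) = v i := fun i => ZMod.intCast_surjective (v i)
    choose x hx using h
    exact ⟨x, funext hx⟩
  ker := by
    intro x hx
    have h : ∀ i, ∃ a : ℤ, x i = a + a := by
      intro i
      have h1 : ((x i : ℤ) : ZMod 2) = 0 := congrFun hx i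
      exact ZMod.intCast_eq_zero_iff_even.mp h1
    choose y hy using h
    exact ⟨y, funext hy⟩

lemma latOf_q {A : Matrix (Fin n) (Fin n) ℝ} (hA : A.PosDef) (x : Fin n → ℤ) :
    (latOf hA).q x = rb A (cv x) (cv x) := rfl

lemma latOf_pr {A : Matrix (Fin n) (Fin n) ℝ} (hA : A.PosDef) (x : Fin n → ℤ) (i : Fin n) :
    (latOf hA).pr x i = ((x i : ℤ) : ZMod 2) := rfl

/-- the half-integral characteristic -/
noncomputable def half1 (S : Finset (Fin n)) : Fin n → ℝ := fun i => if i ∈ S then (1/2 : ℝ) else 0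

/-- the class mod 2 -/
def cls (S : Finset (Fin n)) : Fin n → ZMod 2 := fun i => if i ∈ S then 1 else 0

/-- the corresponding integral vector -/
def ind (S : Finset (Fin n)) : Fin n → ℤ := fun i => if i ∈ S then 1 else 0

lemma pr_ind {A : Matrix (Fin n) (Fin n) ℝ} (hA : A.PosDef) (S : Finset (Fin n)) :
    (latOf hA).pr (ind S) = cls S := by
  funext i
  rw [latOf_pr]
  unfold ind cls
  split_ifs <;> simp

lemma tcvp_eq {A : Matrix (Fin n) (Fin n) ℝ} (hA : A.PosDef) (M : (latOf hA).MinSys)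
    (S : Finset (Fin n)) :
    (⨅ x : Fin n → ℤ,
      dotProduct (fun i => (x i : ℝ) - (if i ∈ S then (1/2 : ℝ) else 0))
        (A.mulVec (fun i => (x i : ℝ) - (if i ∈ S then (1/2 : ℝ) else 0)))) =
    M.f (cls S) / 4 := by
  have key : ∀ x : Fin n → ℤ,
      dotProduct (fun i => (x i : ℝ) - (if i ∈ S then (1/2 : ℝ) else 0))
        (A.mulVec (fun i => (x i : ℝ) - (if i ∈ S then (1/2 : ℝ) else 0))) =
      (latOf hA).q (x + x - ind S) / 4 := by
    intro x
    rw [latOf_q]
    have e : (fun i => (x i : ℝ) - (if i ∈ S then (1/2 : ℝ) else 0)) =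
        (1/2 : ℝ) • cv (x + x - ind S) := by
      funext i
      simp only [cv, ind, Pi.smul_apply, Pi.add_apply, Pi.sub_apply, smul_eq_mul]
      split_ifs <;> push_cast <;> ring
    rw [e]
    have := rb_smul A (1/2) (cv (x + x - ind S)) (cv (x + x - ind S))
    unfold rb at this
    rw [this]
    unfold rb
    ring
  have hpr : ∀ x : Fin n → ℤ, (latOf hA).pr (x + x - ind S) = cls S := by
    intro x
    rw [map_sub, map_add, pr_ind, self_add, zero_sub, neg_eq]
  apply le_antisymm
  · obtain ⟨x, hx⟩ := (latOf hA).ker (M.y (cls S) + ind S) (by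
      rw [map_add, M.pr_y, pr_ind, self_add])
    have hx' : x + x - ind S = M.y (cls S) := by rw [← hx]; abel
    refine le_trans (ciInf_le ?_ x) ?_
    · refine ⟨0, ?_⟩
      rintro _ ⟨z, rfl⟩
      simp only
      rw [key]
      have := (latOf hA).q_nonneg (z + z - ind S)
      linarith
    · rw [key, hx']; exact le_refl _
  · apply le_ciInf
    intro x
    rw [key]
    have := M.f_le' (hpr x)
    linarith

lemma cls_surj (v : Fin n → ZMod 2) : ∃ S : Finset (Fin n), cls S = v := by
  classical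
  refine ⟨Finset.univ.filter (fun i => v i = 1), ?_⟩
  funext i
  unfold cls
  simp only [Finset.mem_filter, Finset.mem_univ, true_and]
  generalize v i = a
  revert a
  decide

end real

end Pool.Agent.K7.H30.Vo
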