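import Pool.Agent.K7.H30.VoF

set_option autoImplicit false
open Matrix

namespace Pool.Agent.K7.H30.Vo

variable {n : ℕ}

/-- `A` has, up to sign, only one minimal vector in every class of integral vectors mod 2. -/
def UniqueMin (A : Matrix (Fin n) (Fin n) ℝ) : Prop :=
  ∀ x y : Fin n → ℤ, (∀ i, Even (x i - y i)) →
    (∀ z : Fin n → ℤ, (∀ i, Even (z i - x i)) →
      rb A (cv x) (cv x) ≤ rb A (cv z) (cv z) ∧ rb A (cv y) (cv y) ≤ rb A (cv z) (cv z)) →
    y = x ∨ y = -x

lemma um_of_uniqueMin {A : Matrix (Fin n) (Fin n) ℝ} (hA : A.PosDef) (h : UniqueMin A)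
    (M : (latOf hA).MinSys) : M.UM := by
  intro x hx
  have hpr : ∀ a b : Fin n → ℤ, (latOf hA).pr a = (latOf hA).pr b → ∀ i, Even (a i - b i) := by
    intro a b hab i
    have h1 := congrFun hab i
    rw [latOf_pr, latOf_pr] at h1
    rw [← ZMod.intCast_eq_zero_iff_even]
    push_cast
    rw [h1, sub_self]
  have hpr' : ∀ a b : Fin n → ℤ, (∀ i, Even (a i - b i)) → (latOf hA).pr a = (latOf hA).pr b := by
    intro a b hab
    funext i
    rw [latOf_pr, latOf_pr]
    have h1 := ZMod.intCast_eq_zero_iff_even.mpr (hab i)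
    push_cast at h1
    exact sub_eq_zero.mp h1
  have := h (M.y ((latOf hA).pr x)) x (hpr _ _ (by rw [M.pr_y])) (by
    intro z hz
    have h1 := hpr' _ _ hz
    rw [M.pr_y] at h1
    have h2 := M.f_le z
    rw [h1] at h2
    exact ⟨h2, le_trans hx h2⟩)
  exact this

/-- Main theorem for matrices. -/
theorem main_matrix {A B : Matrix (Fin n) (Fin n) ℝ} (hA : A.PosDef) (hB : B.PosDef)
    (hu : UniqueMin A)
    (h : ∀ S : Finset (Fin n),
        (⨅ x : Fin n → ℤ,
          dotProduct (fun i => (x i : ℝ) - (if i ∈ S then (1/2 : ℝ) else 0))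
            (A.mulVec (fun i => (x i : ℝ) - (if i ∈ S then (1/2 : ℝ) else 0))))
        = (⨅ x : Fin n → ℤ,
          dotProduct (fun i => (x i : ℝ) - (if i ∈ S then (1/2 : ℝ) else 0))
            (B.mulVec (fun i => (x i : ℝ) - (if i ∈ S then (1/2 : ℝ) else 0))))) :
    ∃ U : Matrix (Fin n) (Fin n) ℤ, IsUnit U.det ∧
        B = (U.map (Int.cast : ℤ → ℝ))ᵀ * A * U.map (Int.cast : ℤ → ℝ) := by
  obtain ⟨M⟩ := (latOf hA).exists_minSys
  obtain ⟨N⟩ := (latOf hB).exists_minSys
  have hum := um_of_uniqueMin hA hu M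
  have hf : ∀ v, M.f v = N.f v := by
    intro v
    obtain ⟨S, rfl⟩ := cls_surj v
    have h1 := h S
    rw [tcvp_eq hA M S, tcvp_eq hB N S] at h1
    linarith
  obtain ⟨e, he⟩ := exists_isometry M N hum hf
  set g : (Fin n → ℤ) ≃ₗ[ℤ] (Fin n → ℤ) := e.symm.toIntLinearEquiv with hg
  have hgq : ∀ z, (latOf hA).q (g z) = (latOf hB).q z := by
    intro z
    have h1 := he (e.symm z)
    rw [e.apply_symm_apply] at h1
    exact h1.symm
  have hgadd : ∀ x y, g (x + y) = g x + g y := fun x y => map_add g x y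
  have hgb : ∀ x y, (latOf hB).b x y = (latOf hA).b (g x) (g y) := by
    intro x y
    have h1 := hgq (x + y)
    rw [hgadd, Lat.q_add, Lat.q_add, hgq, hgq] at h1
    linarith
  refine ⟨LinearMap.toMatrix' (g : (Fin n → ℤ) →ₗ[ℤ] (Fin n → ℤ)), ?_, ?_⟩
  · rw [LinearMap.det_toMatrix']
    exact LinearEquiv.isUnit_det' g
  · ext i j
    have h1 := hgb (Pi.single i 1) (Pi.single j 1)
    have hc : ∀ k : Fin n, cv (Pi.single k 1 : Fin n → ℤ) = Pi.single k 1 := by
      intro k
      funext l
      unfold cv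
      by_cases hkl : l = k
      · subst hkl; simp
      · simp [hkl]
    have hB1 : (latOf hB).b (Pi.single i 1) (Pi.single j 1) = B i j := by
      show rb B (cv (Pi.single i 1)) (cv (Pi.single j 1)) = B i j
      rw [hc, hc]
      unfold rb
      rw [single_one_dotProduct, mulVec_single_one]
      rfl
    have hU : ∀ k : Fin n, cv (g (Pi.single k 1)) =
        ((LinearMap.toMatrix' (g : (Fin n → ℤ) →ₗ[ℤ] (Fin n → ℤ))).map
          (Int.cast : ℤ → ℝ)).col k := by
      intro k
      funext l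
      simp [cv, LinearMap.toMatrix'_apply]
    have hA1 : (latOf hA).b (g (Pi.single i 1)) (g (Pi.single j 1)) =
        (((LinearMap.toMatrix' (g : (Fin n → ℤ) →ₗ[ℤ] (Fin n → ℤ))).map
          (Int.cast : ℤ → ℝ))ᵀ * A * ((LinearMap.toMatrix' (g : (Fin n → ℤ) →ₗ[ℤ] (Fin n → ℤ))).map
          (Int.cast : ℤ → ℝ))) i j := by
      show rb A (cv (g (Pi.single i 1))) (cv (g (Pi.single j 1))) = _
      rw [hU, hU]
      unfold rb
      rw [Matrix.mul_assoc, Matrix.mul_apply]
      rfl
    rw [← hB1, h1, hA1]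

/-- a vector without integral relations -/
lemma exists_indep (n : ℕ) : ∃ s : Fin n → ℝ, ∀ x : Fin n → ℤ, dotProduct (cv x) s = 0 → x = 0 := by
  have ht : Transcendental ℤ (liouvilleNumber ((2 : ℕ) : ℝ)) :=
    transcendental_liouvilleNumber (le_refl 2)
  set t := liouvilleNumber ((2 : ℕ) : ℝ)
  refine ⟨fun i => t ^ (i : ℕ), ?_⟩
  intro x hx
  set P : Polynomial ℤ := ∑ i : Fin n, Polynomial.monomial (i : ℕ) (x i) with hP
  have h1 : Polynomial.aeval t P = 0 := by
    rw [hP, map_sum, ← hx]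
    unfold dotProduct
    apply Finset.sum_congr rfl
    intro i _
    rw [Polynomial.aeval_monomial]
    simp [cv]
  have h2 : P = 0 := by
    by_contra hne
    exact ht ⟨P, hne, h1⟩
  funext i
  have h3 : P.coeff (i : ℕ) = x i := by
    rw [hP, Polynomial.finsetSum_coeff]
    rw [Finset.sum_eq_single i]
    · rw [Polynomial.coeff_monomial, if_pos rfl]
    · intro j _ hj
      rw [Polynomial.coeff_monomial, if_neg]
      intro h4
      exact hj (Fin.ext h4)
    · intro h4; exact absurd (Finset.mem_univ i) h4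
  rw [← h3, h2, Polynomial.coeff_zero, Pi.zero_apply]

/-- density of the set of forms with unique minimal vectors -/
theorem dense_uniqueMin {A : Matrix (Fin n) (Fin n) ℝ} (hA : A.PosDef) {ε : ℝ} (hε : 0 < ε) :
    ∃ A' : Matrix (Fin n) (Fin n) ℝ, A'.PosDef ∧ UniqueMin A' ∧ ∀ i j, |A' i j - A i j| < ε := by
  obtain ⟨s, hs⟩ := exists_indep n
  -- the rank one form
  have hval : ∀ (t : ℝ) (x : Fin n → ℝ), rb (A + t • vecMulVec s s) x x =
      rb A x x + t * (dotProduct x s) ^ 2 := by
    intro t x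
    unfold rb
    rw [add_mulVec, dotProduct_add, smul_mulVec, dotProduct_smul, smul_eq_mul]
    congr 2
    rw [vecMulVec_mulVec, dotProduct_smul]
    simp
    rw [dotProduct_comm s x]; ring
  -- the bad parameters
  set bad : (Fin n → ℤ) × (Fin n → ℤ) → Set ℝ := fun p =>
    {t | p.1 ≠ p.2 ∧ p.2 ≠ -p.1 ∧ rb (A + t • vecMulVec s s) (cv p.1) (cv p.1) =
      rb (A + t • vecMulVec s s) (cv p.2) (cv p.2)} with hbad
  have hsub : ∀ p, (bad p).Subsingleton := by
    rintro ⟨x, y⟩ t ht u hu
    simp only [hbad, Set.mem_ofPred_eq] at ht hu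
    obtain ⟨h1, h2, h3⟩ := ht
    obtain ⟨-, -, h4⟩ := hu
    rw [hval, hval] at h3 h4
    have h5 : (t - u) * ((cv x ⬝ᵥ s) ^ 2 - (cv y ⬝ᵥ s) ^ 2) = 0 := by linarith
    rcases mul_eq_zero.mp h5 with h6 | h6
    · linarith
    · exfalso
      have h7 : (cv x ⬝ᵥ s - cv y ⬝ᵥ s) * (cv x ⬝ᵥ s + cv y ⬝ᵥ s) = 0 := by linarith
      rcases mul_eq_zero.mp h7 with h8 | h8
      · have : x - y = 0 := by
          apply hs
          have e : cv (x - y) = cv x - cv y := by funext i; simp [cv]
          rw [e, sub_dotProduct]; exact h8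
        exact h1 (sub_eq_zero.mp this)
      · have : x + y = 0 := by
          apply hs
          rw [cv_add, add_dotProduct]; exact h8
        exact h2 (eq_neg_of_add_eq_zero_right this)
  have hcount : (⋃ p, bad p).Countable := Set.countable_iUnion (fun p => (hsub p).countable)
  have hdense := hcount.dense_compl ℝ
  -- bound on the entries
  obtain ⟨K, hK⟩ : ∃ K : ℝ, ∀ i j, |s i * s j| ≤ K := by
    have : (Set.range (fun p : Fin n × Fin n => |s p.1 * s p.2|)).Finite := Set.finite_range _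
    obtain ⟨K, hK⟩ := this.bddAbove
    exact ⟨K, fun i j => hK ⟨(i, j), rfl⟩⟩
  have hK' : 0 < |K| + 1 := by positivity
  obtain ⟨t, ht1, ht2⟩ := hdense.exists_mem_open (isOpen_Ioo (a := (0 : ℝ)) (b := ε / (|K| + 1)))
    ⟨ε / (|K| + 1) / 2, by constructor <;> [positivity; exact half_lt_self (by positivity)]⟩
  simp only [Set.mem_compl_iff, Set.mem_iUnion, not_exists] at ht1
  rw [Set.mem_Ioo] at ht2
  refine ⟨A + t • vecMulVec s s, ?_, ?_, ?_⟩
  · rw [Matrix.posDef_iff_dotProduct_mulVec]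
    constructor
    · apply IsHermitian.add hA.1
      rw [IsHermitian, conjTranspose_eq_transpose_of_trivial, transpose_smul]
      congr 1
      ext i j
      simp [vecMulVec_apply, mul_comm]
    · intro x hx
      have h1 := hval t x
      unfold rb at h1
      rw [star_trivial, h1]
      have h2 := rb_pos hA hx
      unfold rb at h2
      have h3 := ht2.1
      positivity
  · intro x y hpar hxy
    by_contra hne
    push Not at hne
    obtain ⟨n1, n2⟩ := hne
    apply ht1 (x, y)
    simp only [hbad, Set.mem_ofPred_eq]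
    refine ⟨fun h => n1 h.symm, n2, ?_⟩
    have k1 := (hxy x (fun i => by simp)).2
    have k2 := (hxy y (fun i => by
      have := (hpar i).neg
      rwa [neg_sub] at this)).1
    exact le_antisymm k2 k1
  · intro i j
    have : (A + t • vecMulVec s s) i j - A i j = t * (s i * s j) := by
      simp [vecMulVec_apply]
    rw [this, abs_mul, abs_of_pos ht2.1]
    have h1 : |s i * s j| ≤ |K| := le_trans (hK i j) (le_abs_self K)
    have h2 : t * (|K| + 1) < ε := by
      have := ht2.2
      rwa [lt_div_iff₀ hK'] at this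
    nlinarith [abs_nonneg (s i * s j), abs_nonneg K]

end Pool.Agent.K7.H30.Vo
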