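import Pool.Agent.K7.H30.VoG

set_option autoImplicit false
open Matrix

namespace Pool.Agent.K7.H30.Vo

variable {n : ℕ}

lemma uniqueMin_of_um {A : Matrix (Fin n) (Fin n) ℝ} (hA : A.PosDef)
    (M : (latOf hA).MinSys) (hM : M.UM) : UniqueMin A := by
  intro x y hpar hxy
  have hpr' : ∀ a b : Fin n → ℤ, (∀ i, Even (a i - b i)) → (latOf hA).pr a = (latOf hA).pr b := by
    intro a b hab
    funext i
    rw [latOf_pr, latOf_pr]
    have h1 := ZMod.intCast_eq_zero_iff_even.mpr (hab i)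
    push_cast at h1
    exact sub_eq_zero.mp h1
  have hpr : ∀ a b : Fin n → ℤ, (latOf hA).pr a = (latOf hA).pr b → ∀ i, Even (a i - b i) := by
    intro a b hab i
    have h1 := congrFun hab i
    rw [latOf_pr, latOf_pr] at h1
    rw [← ZMod.intCast_eq_zero_iff_even]
    push_cast
    rw [h1, sub_self]
  have hc := hpr' x y hpar
  have k := hxy (M.y ((latOf hA).pr x)) (hpr _ _ (by rw [M.pr_y]))
  have hx := hM x k.1
  have hy := hM y (by rw [← hc]; exact k.2)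
  rw [← hc] at hy
  rcases hx with hx | hx <;> rcases hy with hy | hy
  · left; rw [hy]; exact hx.symm
  · right; rw [hy, ← hx]
  · right; rw [hy]; exact (neg_eq_iff_eq_neg.mpr hx).symm
  · left; rw [hy]; exact hx.symm

lemma rb_diff_bound (A A' : Matrix (Fin n) (Fin n) ℝ) {ε : ℝ} (hε : 0 ≤ ε)
    (h : ∀ i j, |A' i j - A i j| < ε) (x : Fin n → ℝ) :
    |rb A' x x - rb A x x| ≤ (n : ℝ) * n * ε * ‖x‖ ^ 2 := by
  have e : rb A' x x - rb A x x = ∑ i, ∑ j, x i * ((A' i j - A i j) * x j) := by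
    unfold rb
    rw [← dotProduct_sub, ← sub_mulVec]
    unfold dotProduct mulVec dotProduct
    simp only [Finset.mul_sum, Matrix.sub_apply]
  rw [e]
  have hb : ∀ i j, |x i * ((A' i j - A i j) * x j)| ≤ ε * ‖x‖ ^ 2 := by
    intro i j
    have hi : |x i| ≤ ‖x‖ := by
      have := norm_le_pi_norm x i
      simpa [Real.norm_eq_abs] using this
    have hj : |x j| ≤ ‖x‖ := by
      have := norm_le_pi_norm x j
      simpa [Real.norm_eq_abs] using this
    rw [abs_mul, abs_mul]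
    have hij := (h i j).le
    calc |x i| * (|A' i j - A i j| * |x j|) ≤ ‖x‖ * (ε * ‖x‖) := by gcongr
      _ = ε * ‖x‖ ^ 2 := by ring
  calc |∑ i, ∑ j, x i * ((A' i j - A i j) * x j)|
      ≤ ∑ i, |∑ j, x i * ((A' i j - A i j) * x j)| := Finset.abs_sum_le_sum_abs _ _
    _ ≤ ∑ i : Fin n, ∑ j : Fin n, ε * ‖x‖ ^ 2 := by
        apply Finset.sum_le_sum
        intro i _
        refine le_trans (Finset.abs_sum_le_sum_abs _ _) ?_
        apply Finset.sum_le_sum
        intro j _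
        exact hb i j
    _ = (n : ℝ) * n * ε * ‖x‖ ^ 2 := by
        simp; ring

/-- the set of forms with unique minimal vectors is open in the cone -/
theorem open_uniqueMin {A : Matrix (Fin n) (Fin n) ℝ} (hA : A.PosDef) (hu : UniqueMin A) :
    ∃ ε : ℝ, 0 < ε ∧ ∀ A' : Matrix (Fin n) (Fin n) ℝ, A'.PosDef →
      (∀ i j, |A' i j - A i j| < ε) → UniqueMin A' := by
  obtain ⟨M⟩ := (latOf hA).exists_minSys
  have hum := um_of_uniqueMin hA hu M
  have hss := ss_of_um M hum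
  -- uniform slack
  obtain ⟨δ, hδ0, hδ1, hδ⟩ : ∃ δ : ℝ, 0 < δ ∧ δ < 1 ∧ ∀ a b : Fin n → ZMod 2, a ≠ 0 → b ≠ 0 →
      a ≠ b → (1 + δ) * M.f (a + b) < (1 - δ) * (M.f a + M.f b) := by
    have h1 : ∀ p : (Fin n → ZMod 2) × (Fin n → ZMod 2), ∃ δ : ℝ, 0 < δ ∧
        (p.1 ≠ 0 → p.2 ≠ 0 → p.1 ≠ p.2 →
          ∀ d : ℝ, d ≤ δ → (1 + d) * M.f (p.1 + p.2) < (1 - d) * (M.f p.1 + M.f p.2)) := by
      rintro ⟨a, b⟩
      by_cases h : a ≠ 0 ∧ b ≠ 0 ∧ a ≠ b
      · have h2 := hss a b h.1 h.2.1 h.2.2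
        set X := M.f a + M.f b with hX
        set Y := M.f (a + b) with hY
        have hX0 : 0 < X := by
          have := M.f_pos h.1
          have := M.f_pos h.2.1
          linarith
        have hY0 : 0 ≤ Y := M.f_nonneg _
        refine ⟨(X - Y) / (2 * (X + Y)), by apply div_pos <;> linarith, ?_⟩
        intro _ _ _ d hd
        have h3 : 0 < X + Y := by linarith
        have h4 : d * (X + Y) ≤ (X - Y) / 2 := by
          have := mul_le_mul_of_nonneg_right hd h3.le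
          refine le_trans this (le_of_eq ?_)
          field_simp
        nlinarith
      · refine ⟨1, one_pos, ?_⟩
        intro h1 h2 h3
        exact absurd ⟨h1, h2, h3⟩ h
    choose δ hδ using h1
    obtain ⟨p0, hp0⟩ := Finite.exists_min δ
    refine ⟨min (δ p0) (1/2), lt_min (hδ p0).1 (by norm_num),
      lt_of_le_of_lt (min_le_right _ _) (by norm_num), ?_⟩
    intro a b ha hb hab
    exact (hδ (a, b)).2 ha hb hab _ (le_trans (min_le_left _ _) (hp0 (a, b)))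
  obtain ⟨c, hc, hco⟩ := rb_coercive hA
  refine ⟨δ * c / (n * n + 1), by positivity, ?_⟩
  intro A' hA' hclose
  have hn : (0 : ℝ) < n * n + 1 := by positivity
  have hcmp : ∀ x : Fin n → ℝ, |rb A' x x - rb A x x| ≤ δ * rb A x x := by
    intro x
    have h1 := rb_diff_bound A A' (by positivity) hclose x
    refine le_trans h1 ?_
    have h2 : (n : ℝ) * n * (δ * c / (n * n + 1)) ≤ δ * c := by
      rw [mul_div_assoc', div_le_iff₀ hn]
      have : 0 < δ * c := by positivity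
      nlinarith
    calc (n : ℝ) * n * (δ * c / (n * n + 1)) * ‖x‖ ^ 2 ≤ δ * c * ‖x‖ ^ 2 := by gcongr
      _ = δ * (c * ‖x‖ ^ 2) := by ring
      _ ≤ δ * rb A x x := by gcongr; exact hco x
  obtain ⟨M'⟩ := (latOf hA').exists_minSys
  -- comparison of vonorms
  have hup : ∀ v, M'.f v ≤ (1 + δ) * M.f v := by
    intro v
    have h1 : M'.f v ≤ (latOf hA').q (M.y v) := M'.f_le' (M.pr_y v)
    rw [latOf_q] at h1
    have h2 := (abs_le.mp (hcmp (cv (M.y v)))).2
    have h3 : M.f v = rb A (cv (M.y v)) (cv (M.y v)) := rfl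
    rw [← h3] at h2
    linarith
  have hlo : ∀ v, (1 - δ) * M.f v ≤ M'.f v := by
    intro v
    have h1 : M.f v ≤ (latOf hA).q (M'.y v) := M.f_le' (M'.pr_y v)
    rw [latOf_q] at h1
    have h2 := (abs_le.mp (hcmp (cv (M'.y v)))).1
    have h3 : M'.f v = rb A' (cv (M'.y v)) (cv (M'.y v)) := rfl
    rw [← h3] at h2
    nlinarith
  apply uniqueMin_of_um hA' M'
  apply um_of_ss
  intro a b ha hb hab
  have h1 := hup (a + b)
  have h2 := hlo a
  have h3 := hlo b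
  have h4 := hδ a b ha hb hab
  linarith

lemma nhds_entry' (F : Fin n → Fin n → ℝ) {O : Set (Fin n → Fin n → ℝ)}
    (hO : O ∈ nhds F) : ∃ ε : ℝ, 0 < ε ∧ ∀ F' : Fin n → Fin n → ℝ,
      (∀ i j, |F' i j - F i j| < ε) → F' ∈ O := by
  obtain ⟨ε, hε, hsub⟩ := Metric.mem_nhds_iff.mp hO
  refine ⟨ε, hε, ?_⟩
  intro F' hF'
  apply hsub
  rw [Metric.mem_ball, dist_pi_lt_iff hε]
  intro i
  rw [dist_pi_lt_iff hε]
  intro j
  rw [Real.dist_eq]
  exact hF' i j

lemma entry_nhds' (F : Fin n → Fin n → ℝ) {ε : ℝ} (hε : 0 < ε) :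
    {F' : Fin n → Fin n → ℝ | ∀ i j, |F' i j - F i j| < ε} ∈ nhds F := by
  apply Metric.mem_nhds_iff.mpr
  refine ⟨ε, hε, ?_⟩
  intro F' hF' i j
  rw [Metric.mem_ball, dist_pi_lt_iff hε] at hF'
  have := hF' i
  rw [dist_pi_lt_iff hε] at this
  have := this j
  rwa [Real.dist_eq] at this

/-- neighbourhoods of a matrix -/
lemma nhds_entry (A : Matrix (Fin n) (Fin n) ℝ) {O : Set (Matrix (Fin n) (Fin n) ℝ)}
    (hO : O ∈ nhds A) : ∃ ε : ℝ, 0 < ε ∧ ∀ A' : Matrix (Fin n) (Fin n) ℝ,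
      (∀ i j, |A' i j - A i j| < ε) → A' ∈ O :=
  nhds_entry' (fun i j => A i j) hO

lemma entry_nhds (A : Matrix (Fin n) (Fin n) ℝ) {ε : ℝ} (hε : 0 < ε) :
    {A' : Matrix (Fin n) (Fin n) ℝ | ∀ i j, |A' i j - A i j| < ε} ∈ nhds A :=
  entry_nhds' (fun i j => A i j) hε

theorem isOpen_set : IsOpen {A : {A : Matrix (Fin n) (Fin n) ℝ // A.PosDef} | UniqueMin A.1} := by
  rw [isOpen_iff_mem_nhds]
  rintro ⟨A, hA⟩ hu
  obtain ⟨ε, hε, h⟩ := open_uniqueMin hA hu
  rw [nhds_subtype_eq_comap]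
  refine ⟨_, entry_nhds A hε, ?_⟩
  rintro ⟨A', hA'⟩ hclose
  exact h A' hA' hclose

theorem dense_set : Dense {A : {A : Matrix (Fin n) (Fin n) ℝ // A.PosDef} | UniqueMin A.1} := by
  rintro ⟨A, hA⟩
  rw [mem_closure_iff_nhds]
  intro t ht
  rw [nhds_subtype_eq_comap] at ht
  obtain ⟨O, hO, hsub⟩ := ht
  obtain ⟨ε, hε, h⟩ := nhds_entry A hO
  obtain ⟨A', h1, h2, h3⟩ := dense_uniqueMin hA hε
  exact ⟨⟨A', h1⟩, hsub (h A' h3), h2⟩

end Pool.Agent.K7.H30.Vo
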